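import Mathlib
import Pool.Agent.MP_1fb45e.Setup

set_option autoImplicit false

open SimpleGraph Pool.Agent.MP_1fb45e

namespace Pool.Agent.Results.MP_1fb45e_co.OneCutVertex

/-- Let `H` be a 4-regular graph with an odd number of vertices, decomposed into two Hamilton
circuits `C₁`, `C₂`, such that `H - {u, v}` is connected for all vertices `u, v`.  Then for every
vertex `z` there is an alternating circuit `D` avoiding `z` such that no vertex other than `z` is
a cut-vertex of `H - E(D)`.  (For `K₅` this is best possible: `z` is a cut-vertex.) -/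
theorem result :
  ∀ (V : Type) [Fintype V] [DecidableEq V] (H : SimpleGraph V) [DecidableRel H.Adj],
    H.IsRegularOfDegree 4 →
    ∀ (x y : V) (C₁ : H.Walk x x) (C₂ : H.Walk y y),
      C₁.IsHamiltonianCycle → C₂.IsHamiltonianCycle →
      (∀ e ∈ H.edgeSet, (e ∈ C₁.edges ↔ e ∉ C₂.edges)) →
      IsThreeConnected H →
      Odd (Fintype.card V) → ∀ z : V,
        ∃ (u : V) (D : H.Walk u u), IsAlternatingCircuit C₁ D ∧ z ∉ D.support ∧
          ∀ w, w ≠ z → ¬ IsCutVertex (H.deleteEdges {e | e ∈ D.edges}) w := by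
  intro V _ _ H _ hreg x y C₁ C₂ hC₁ hC₂ hdec h3 hodd z
  obtain ⟨hR, hB, hnb⟩ := basic_facts H hreg C₁ C₂ hC₁ hC₂ hdec
  obtain ⟨c, hc, hcz, a, b, hab, hcab⟩ := colouring_at H C₁ C₂ hC₁ hC₂ hdec z
  have hcz := hcz hodd
  have hdeg := fun (v : V) (hv : v ≠ z) (i : Fin 3) =>
    proper_deg H {e | e ∈ C₁.edges} c 2 v (hc v (Or.inl hv)) (hR v) (hB v) i
  have hz0 : (CG H c 0).neighborSet z = H.neighborSet z := by
    ext w
    exact ⟨fun h => h.1, fun h => ⟨h, hcz w h⟩⟩
  have hzi : ∀ i, i ≠ 0 → (CG H c i).neighborSet z = ∅ := by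
    intro i hi
    ext w
    simp only [SimpleGraph.mem_neighborSet, Set.mem_empty_iff_false, iff_false]
    intro h
    exact hi (h.2.symm.trans (hcz w h.1))
  have h4 : (H.neighborSet z).ncard = 4 := by
    rw [Set.ncard_eq_toFinset_card', ← hreg z, ← SimpleGraph.card_neighborFinset_eq_degree]
    rfl
  have hev : ∀ i v, Even ((CG H c i).neighborSet v).ncard := by
    intro i v
    by_cases hv : v = z
    · subst hv
      by_cases hi : i = 0
      · subst hi
        rw [hz0, h4]; decide
      · rw [hzi i hi, Set.ncard_empty]; exact Even.zero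
    · by_cases hi : i = 2
      · rw [(hdeg v hv i).1 hi]; exact Even.zero
      · rw [(hdeg v hv i).2.1 hi]; exact even_two
  obtain ⟨w₀, hw₀⟩ := hnb z
  obtain ⟨D, hD, hDX, hcut⟩ := exists_good_class (c := c) h3 hev
    {⟨0, (CG H c 0).connectedComponentMk z⟩}
    (by
      rintro D hD
      rw [Set.mem_singleton_iff] at hD
      subst hD
      exact ⟨z, ⟨w₀, hw₀, hcz w₀ hw₀⟩, rfl⟩)
    Set.subsingleton_singleton
    ⟨⟨c s(a, b), (CG H c (c s(a, b))).connectedComponentMk a⟩, ⟨a, inc_of_adj hab⟩, by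
      rw [Set.mem_singleton_iff]
      intro h
      have := congrArg Sigma.fst h
      dsimp only at this
      rw [hcab] at this
      exact absurd this (by decide)⟩
  have hDz : ∀ v, Inc H c v D → v ≠ z := by
    rintro v ⟨⟨w, hw⟩, hv⟩ hvz
    subst hvz
    have hi : D.1 = 0 := by
      rw [← hw.2]; exact hcz w hw.1
    apply hDX
    rw [Set.mem_singleton_iff]
    obtain ⟨i, K⟩ := D
    dsimp only at hi hv
    subst hi
    rw [← hv]
  obtain ⟨u, p, h1, hs, h2⟩ := finish C₁ D hD
    (by
      intro v hv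
      have hvz := hDz v hv
      by_cases hi : D.1 = 2
      · exfalso
        obtain ⟨⟨w, hw⟩, -⟩ := hv
        exact ((hc v (Or.inl hvz)) w hw.1).1 (hw.2.trans hi)
      · exact (hdeg v hvz D.1).2.1 hi)
    (fun v hv => (hdeg v (hDz v hv) D.1).2.2) (fun w => w ≠ z)
    (fun w hw => hcut w (by
      intro i
      by_cases hi : i = 2
      · rw [(hdeg w hw i).1 hi]; norm_num
      · rw [(hdeg w hw i).2.1 hi]))
  exact ⟨u, p, h1, fun hz => hDz z (hs z hz) rfl, h2⟩

end Pool.Agent.Results.MP_1fb45e_co.OneCutVertex
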