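import Mathlib
import Pool.Agent.MP_1fb45e.Setup

set_option autoImplicit false

open SimpleGraph Pool.Agent.MP_1fb45e

namespace Pool.Agent.Results.MP_1fb45e_co.ThreeConnected

/-- Let `H` be a 4-regular graph decomposed into two Hamilton circuits `C₁`, `C₂`, such that
`H - {u, v}` is connected for all vertices `u, v`.  If the number of vertices is even, or, more
generally, if the cubic graph obtained by splitting the vertices of `H` is 3-edge-colourable,
then there is an alternating circuit `D` such that `H - E(D)` has no cut-vertex. -/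
theorem result :
  ∀ (V : Type) [Fintype V] [DecidableEq V] (H : SimpleGraph V) [DecidableRel H.Adj],
    H.IsRegularOfDegree 4 →
    ∀ (x y : V) (C₁ : H.Walk x x) (C₂ : H.Walk y y),
      C₁.IsHamiltonianCycle → C₂.IsHamiltonianCycle →
      (∀ e ∈ H.edgeSet, (e ∈ C₁.edges ↔ e ∉ C₂.edges)) →
      IsThreeConnected H →
      (Even (Fintype.card V) ∨ SplitColourable C₁) →
        ∃ (u : V) (D : H.Walk u u), IsAlternatingCircuit C₁ D ∧
          ∀ w, ¬ IsCutVertex (H.deleteEdges {e | e ∈ D.edges}) w := by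
  intro V _ _ H _ hreg x y C₁ C₂ hC₁ hC₂ hdec h3
  obtain ⟨hR, hB, hnb⟩ := basic_facts H hreg C₁ C₂ hC₁ hC₂ hdec
  rintro (heven | hcol)
  · obtain ⟨c, hc, -, -⟩ := colouring_at H C₁ C₂ hC₁ hC₂ hdec x
    exact colourable_case C₁ h3 ⟨x, hnb x⟩ hR hB
      ⟨c, fun _ => 2, fun v w hw => hc v (Or.inr heven) w hw⟩
  · exact colourable_case C₁ h3 ⟨x, hnb x⟩ hR hB hcol

end Pool.Agent.Results.MP_1fb45e_co.ThreeConnected
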